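import Pool.Agent.Helper89.OC.St3

/-! # Project OC, module FIN -/

set_option autoImplicit false

namespace Pool.Agent.Helper97.OC

open Matrix ComplexConjugate Pool.Agent.Helper94.YF Pool.Agent.Helper94.YG
  Pool.Agent.Helper89.OS Pool.Agent.Helper89.OC

theorem memKs {I : Type} [Fintype I] [DecidableEq I] {p : ℕ} (X : PD I p 1) (k : I) :
    k ∈ Ks X ↔ X.y k ≠ 0 ∧ X.t k = 1 ∧ k ≠ X.o := by
  classical
  simp [Ks]

theorem sq_sum_one {I : Type} [Fintype I] [DecidableEq I] (f : I → ℕ)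
    (h : ∑ l, f l * f l = 1) : ∃ x, f x = 1 ∧ ∀ l, l ≠ x → f l = 0 := by
  have h1 : ∃ x, f x ≠ 0 := by
    by_contra hcon
    push Not at hcon
    simp [hcon] at h
  obtain ⟨x, hx⟩ := h1
  have h2 : f x * f x + ∑ l ∈ Finset.univ.erase x, f l * f l = 1 := by
    rw [← h]
    exact Finset.add_sum_erase Finset.univ (fun l => f l * f l) (Finset.mem_univ x)
  have h3 : 1 ≤ f x := Nat.one_le_iff_ne_zero.2 hx
  have h4 : 1 ≤ f x * f x := Nat.one_le_iff_ne_zero.2 (mul_ne_zero hx hx)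
  have h5 : ∑ l ∈ Finset.univ.erase x, f l * f l = 0 := by omega
  have h6 : f x * f x = 1 := by omega
  refine ⟨x, Nat.eq_one_of_mul_eq_one_left h6, ?_⟩
  intro l hl
  have h7 := (Finset.sum_eq_zero_iff.1 h5) l (Finset.mem_erase.2 ⟨hl, Finset.mem_univ l⟩)
  exact mul_self_eq_zero.1 h7

theorem hFIN : StFIN := by
  intro hCEN hKRO hTS2 hORB hGLA hGLB hGLC hLKN I _ _ Z p _ b X Q a v w hL hB ha hga hv hw hsv
    hsvv hOv hOsv hyv hyw hgw hcop hcov
  classical
  have A := hGLA I Z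
  have Bf := hGLB I Z
  have C := hGLC hGLA hGLB I Z
  obtain ⟨nform, -, -⟩ := hLKN I Z p b X hL
  have O := hORB I p X
  have hg2 : 2 ≤ gX X := (Pool.Agent.Helper39.OS.hMZZ I p X).2.2.2.2.1
  obtain ⟨hv1, hv2, hv3⟩ := (memKs X v).1 hv
  obtain ⟨hw1, hw2, hw3⟩ := (memKs X w).1 hw
  have dpos : ∀ i, (Z.d i : ℂ) ≠ 0 := fun i => Nat.cast_ne_zero.2 (Z.d_pos i).ne'
  have dst : ∀ i, Z.d (Z.st i) = Z.d i := by
    intro i
    have := X.d_st i
    rwa [hL.d, hL.st] at this
  -- an invertible object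
  have goal2 : Z.d v = 1 → Goal3 Z := by
    intro h
    refine Or.inl ⟨v, ?_, h, ?_⟩
    · rw [← hL.o]; exact hv3
    · rw [← hL.th]; exact X.th_of v hv1 hv2
  -- the pair v, st v
  have hV : ∀ v', (v' = v ∨ v' = X.st v) → v' ∈ Ks X ∧ Orb X v' = {v'} ∧
      X.y v' ^ 2 = gX X ^ 2 ∧ Z.d v' = Z.d v := by
    rintro v' (rfl | rfl)
    · exact ⟨hv, hOv, hyv, rfl⟩
    · refine ⟨hsv, hOsv, ?_, ?_⟩
      · rw [X.y_st]; exact hyv
      · rw [← hL.d]; exact X.d_st v
  -- the orbit of w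
  have hW : ∀ w' ∈ Orb X w, X.y w' = X.y w ∧ Z.d w' = Z.d w ∧ X.t w' = 1 ∧ w' ≠ X.o := by
    intro w' hw'
    refine ⟨O.y w w' hw', ?_, O.t w w' hw' hw2, ?_⟩
    · rw [← hL.d]; exact O.d w w' hw'
    · rintro rfl
      exact hw3 (O.o w hw')
  have cen : ∀ w' ∈ Orb X w, Cchi Z v w' = Z.d w' := by
    intro w' hw'
    obtain ⟨h1, h2, h3, h4⟩ := hW w' hw'
    have h5 : Nat.Coprime (X.d v) (X.d w') := by
      rw [O.d w w' hw']; exact hcop
    have h6 := hCEN hKRO hTS2 hORB hGLA hLKN I Z p b X Q hL hB v w' hv hOv hyv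
      (by rw [h1]; exact hw1) h5
    rw [A.Sf_chi] at h6
    exact mul_left_cancel₀ (dpos v) h6
  set D1 : I → Prop := fun j => Cchi Z v j = Z.d j with hD1
  set D2 : I → Prop := fun j => ∀ i, D1 i → Cchi Z i j = Z.d j with hD2
  have D1o : D1 Z.o := by
    simp only [hD1]
    rw [A.chi_o, Z.d_o, Nat.cast_one]
  have D2o : D2 Z.o := by
    intro i _
    rw [A.chi_o, Z.d_o, Nat.cast_one]
  have stgen : ∀ i j, Cchi Z i j = Z.d j → Cchi Z i (Z.st j) = Z.d (Z.st j) := by
    intro i j h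
    rw [A.chi_st, h, dst, Complex.conj_natCast]
  have D1st : ∀ j, D1 j → D1 (Z.st j) := fun j h => stgen v j h
  have D2st : ∀ j, D2 j → D2 (Z.st j) := fun j h i hi => stgen i j (h i hi)
  have D1f : ∀ k l u, D1 k → D1 l → Z.N k l u ≠ 0 → D1 u := fun k l u h1 h2 h3 =>
    A.clos v k l u h1 h2 h3
  have D2f : ∀ k l u, D2 k → D2 l → Z.N k l u ≠ 0 → D2 u := fun k l u h1 h2 h3 i hi =>
    A.clos i k l u (h1 i hi) (h2 i hi) h3
  have D2v : D2 v := by
    intro i hi
    have h1 : Sf Z v i = (Z.d v : ℂ) * Z.d i := by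
      rw [A.Sf_chi]
      rw [show Cchi Z v i = Z.d i from hi]
    rw [A.Sf_symm, A.Sf_chi, mul_comm (Z.d v : ℂ)] at h1
    exact mul_left_cancel₀ (dpos i) h1
  have D2V : ∀ v', (v' = v ∨ v' = X.st v) → D2 v' := by
    rintro v' (rfl | rfl)
    · exact D2v
    · rw [hL.st]; exact D2st _ D2v
  by_cases hcase : ∃ x, x ≠ Z.o ∧ D1 x ∧ D2 x
  · -- the Tannakian subcategory
    obtain ⟨x0, hx0, hx1, hx2⟩ := hcase
    refine Or.inr ⟨fun j => D1 j ∧ D2 j, ?_⟩
    have hsym : ∀ x y, (D1 x ∧ D2 x) → (D1 y ∧ D2 y) → Sf Z x y = (Z.d x : ℂ) * Z.d y := by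
      intro x y hx hy
      rw [A.Sf_chi, hy.2 x hx.1]
    refine ⟨⟨D1o, D2o⟩, ⟨x0, ⟨hx1, hx2⟩, hx0⟩, fun x hx => ⟨D1st x hx.1, D2st x hx.2⟩,
      fun x y z hx hy hz => ⟨D1f x y z hx.1 hy.1 hz, D2f x y z hx.2 hy.2 hz⟩, ?_, hsym⟩
    intro x hx
    refine C.self hL.odd x ?_
    rw [hsym x x hx hx, sq]
  · push Not at hcase
    have honly : ∀ x, D1 x → D2 x → x = Z.o := by
      intro x h1 h2
      by_contra h
      exact hcase x h h1 h2
    by_contra hgoal
    have hdv : Z.d v ≠ 1 := fun h => hgoal (goal2 h)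
    have stst : ∀ i, Z.st (Z.st i) = i := by
      intro i
      have := X.st_st i
      rwa [hL.st] at this
    -- products of the fusion coefficients
    have hprod : ∀ v' v'' w' w'', (v' = v ∨ v' = X.st v) → (v'' = v ∨ v'' = X.st v) →
        w' ∈ Orb X w → w'' ∈ Orb X w →
        ∑ l, Z.N v' w' l * Z.N v'' w'' l = if v' = v'' ∧ w'' = w' then 1 else 0 := by
      intro v' v'' w' w'' h1 h2 h3 h4
      rw [Bf.assoc, Finset.sum_eq_single Z.o]
      · rw [Bf.N_o, Bf.N_o]
        by_cases e1 : v' = v'' <;> by_cases e2 : w'' = w' <;> simp [e1, e2]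
      · intro l _ hl
        by_contra hne
        have hne1 : Z.N v' (Z.st v'') l ≠ 0 := fun h => hne (by rw [h, zero_mul])
        have hne2 : Z.N w'' (Z.st w') l ≠ 0 := fun h => hne (by rw [h, mul_zero])
        refine hl (honly l (D1f _ _ _ (cen w'' h4) (D1st _ (cen w' h3)) hne2) ?_)
        exact D2f _ _ _ (D2V v' h1) (D2st _ (D2V v'' h2)) hne1
      · intro h
        exact absurd (Finset.mem_univ _) h
    have hex : ∀ q : I × I, ∃ x, (q.1 = v ∨ q.1 = X.st v) → q.2 ∈ Orb X w →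
        Z.N q.1 q.2 x = 1 ∧ ∀ l, l ≠ x → Z.N q.1 q.2 l = 0 := by
      intro q
      by_cases h : (q.1 = v ∨ q.1 = X.st v) ∧ q.2 ∈ Orb X w
      · have h1 := hprod q.1 q.1 q.2 q.2 h.1 h.1 h.2 h.2
        rw [if_pos ⟨rfl, rfl⟩] at h1
        obtain ⟨x, hx⟩ := sq_sum_one (fun l => Z.N q.1 q.2 l) h1
        exact ⟨x, fun _ _ => hx⟩
      · exact ⟨Z.o, fun h1 h2 => absurd ⟨h1, h2⟩ h⟩
    choose x hx using hex
    -- injectivity
    set S : Finset (I × I) := ({v, X.st v} : Finset I) ×ˢ Orb X w with hS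
    have hSm : ∀ q ∈ S, (q.1 = v ∨ q.1 = X.st v) ∧ q.2 ∈ Orb X w := by
      intro q hq
      rw [hS, Finset.mem_product] at hq
      refine ⟨?_, hq.2⟩
      simpa using hq.1
    have hinj : Set.InjOn x (S : Set (I × I)) := by
      intro q hq r hr hqr
      obtain ⟨q1, q2⟩ := hSm q hq
      obtain ⟨r1, r2⟩ := hSm r hr
      by_contra hne
      have h1 := hprod q.1 r.1 q.2 r.2 q1 r1 q2 r2
      have h2 : ¬ (q.1 = r.1 ∧ r.2 = q.2) := by
        rintro ⟨e1, e2⟩
        exact hne (Prod.ext e1 e2.symm)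
      rw [if_neg h2] at h1
      have h3 := (Finset.sum_eq_zero_iff.1 h1) (x q) (Finset.mem_univ _)
      rw [(hx q q1 q2).1, one_mul, hqr, (hx r r1 r2).1] at h3
      exact one_ne_zero h3
    -- dimensions
    have hdim : ∀ q ∈ S, Z.d (x q) = Z.d v * Z.d w := by
      intro q hq
      obtain ⟨q1, q2⟩ := hSm q hq
      obtain ⟨h1, h2⟩ := hx q q1 q2
      have h3 := Bf.dim q.1 q.2
      rw [Finset.sum_eq_single (x q) (fun l _ hl => by rw [h2 l hl, zero_mul])
        (fun h => absurd (Finset.mem_univ _) h), h1, one_mul, (hV q.1 q1).2.2.2,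
        (hW q.2 q2).2.1] at h3
      exact h3.symm
    -- the values of y and t
    have hyt : ∀ q ∈ S, X.y (x q) ^ 2 = 1 ∧ X.t (x q) = 1 := by
      intro q hq
      obtain ⟨q1, q2⟩ := hSm q hq
      obtain ⟨h1, h2⟩ := hx q q1 q2
      obtain ⟨k1, k2, k3, -⟩ := hV q.1 q1
      obtain ⟨u1, -, u3, u4⟩ := hW q.2 q2
      have e1 := nform q.1 (X.st q.2)
      rw [X.st_st, X.t_st, u3, ((memKs X q.1).1 k1).2.1, hL.N,
        Finset.sum_eq_single (x q) (fun l _ hl => by rw [h2 l hl, Nat.cast_zero, zero_mul])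
        (fun h => absurd (Finset.mem_univ _) h), h1] at e1
      simp only [mul_one, Nat.cast_one, one_mul] at e1
      have hsto : X.st q.2 ≠ X.o := by
        intro h
        apply u4
        have := congrArg X.st h
        rwa [X.st_st, X.st_o] at this
      have hyst : X.y (X.st q.2) ^ 2 = 1 := by rw [X.y_st, u1]; exact hyw
      have hstv : X.st q.2 ≠ q.1 := by
        intro h
        rw [h, k3] at hyst
        nlinarith
      have e2 := (hTS2 hORB I p X Q hB q.1 k1).1 (X.st q.2)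
      rw [k2] at e2
      simp only [Finset.mem_singleton, Finset.card_singleton, Nat.cast_one, one_mul] at e2
      rw [if_neg hstv, if_neg hsto] at e2
      have e3 : ∑ l, X.s (X.st q.2) l * ((gX X : ℂ) * (if l = q.1 then 1 else 0) +
          (X.y q.1 : ℂ) * (if l = X.o then 1 else 0)) =
          (gX X : ℂ) * X.s (X.st q.2) q.1 + (X.y q.1 : ℂ) * X.y (X.st q.2) := by
        simp only [mul_add, Finset.sum_add_distrib, mul_ite, mul_one, mul_zero,
          Finset.sum_ite_eq', Finset.mem_univ, if_true]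
        rw [X.s_o]
        ring
      rw [e3] at e2
      have e4 : (gX X : ℂ) * X.s (X.st q.2) q.1 = -((X.y q.1 : ℂ) * X.y (X.st q.2)) := by
        linear_combination e2
      have hg0 : (gX X : ℂ) ≠ 0 := by
        have : gX X ≠ 0 := by omega
        exact_mod_cast this
      have e5 : X.s (X.st q.2) q.1 ^ 2 = 1 := by
        have k3' : (X.y q.1 : ℂ) ^ 2 = (gX X : ℂ) ^ 2 := by exact_mod_cast k3
        have hyst' : (X.y (X.st q.2) : ℂ) ^ 2 = 1 := by exact_mod_cast hyst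
        have h6 : ((gX X : ℂ) * X.s (X.st q.2) q.1) ^ 2 = (gX X : ℂ) ^ 2 * 1 := by
          rw [e4, neg_sq, mul_pow, k3', hyst']
        rw [mul_pow] at h6
        exact mul_left_cancel₀ (pow_ne_zero 2 hg0) h6
      rw [X.s_symm, e1] at e5
      have hp := X.prime
      have tp : X.t (x q) ^ p = 1 := by
        have := X.t_pow (x q)
        rwa [pow_one] at this
      have hnorm : ‖X.t (x q)‖ = 1 := Complex.norm_eq_one_of_pow_eq_one tp hp.ne_zero
      have hy2 : (X.y (x q) : ℝ) ^ 2 = 1 := by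
        have h7 : ‖(X.t (x q) * X.y (x q)) ^ 2‖ = 1 := by rw [e5, norm_one]
        rw [norm_pow, norm_mul, hnorm, one_mul, Complex.norm_intCast, sq_abs] at h7
        exact h7
      have hy2' : X.y (x q) ^ 2 = 1 := by exact_mod_cast hy2
      refine ⟨hy2', ?_⟩
      have ht2 : X.t (x q) ^ 2 = 1 := by
        rw [mul_pow] at e5
        have : (X.y (x q) : ℂ) ^ 2 = 1 := by exact_mod_cast hy2'
        rwa [this, mul_one] at e5
      obtain ⟨m, hm⟩ := X.p_odd
      have tp2 : X.t (x q) ^ (2 * m + 1) = 1 := by rw [← hm]; exact tp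
      rw [pow_add, pow_mul, ht2, one_pow, one_mul, pow_one] at tp2
      exact tp2
    have hmem : ∀ q ∈ S, x q ∈ Orb X a := by
      intro q hq
      obtain ⟨h1, h2⟩ := hyt q hq
      have h3 := hdim q hq
      have hxo : x q ≠ X.o := by
        intro h
        rw [h, hL.o, Z.d_o] at h3
        exact hdv (Nat.eq_one_of_mul_eq_one_right h3.symm)
      have hxK : x q ∈ Ks X := by
        rw [memKs]
        refine ⟨fun h => ?_, h2, hxo⟩
        rw [h] at h1
        norm_num at h1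
      have hnot : ∀ u, X.y u ^ 2 = gX X ^ 2 → x q ≠ u := by
        intro u hu h
        rw [h, hu] at h1
        nlinarith
      rcases hcov (x q) hxK with h | h | h | h
      · exact h
      · exfalso
        rw [(hW _ h).2.1] at h3
        have hw0 := Z.d_pos w
        apply hdv
        have : Z.d v * Z.d w = 1 * Z.d w := by rw [one_mul]; exact h3.symm
        exact Nat.eq_of_mul_eq_mul_right hw0 this
      · exact absurd h (hnot v hyv)
      · exact absurd h (hnot (X.st v) (by rw [X.y_st]; exact hyv))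
    have hcard : S.card ≤ (Orb X a).card :=
      Finset.card_le_card_of_injOn x (fun q hq => hmem q hq) hinj
    have hSc : (S.card : ℤ) = 2 * gX X := by
      rw [hS, Finset.card_product, Finset.card_pair hsvv.symm, ← hgw]
      push_cast
      ring
    have : (S.card : ℤ) ≤ gX X := by
      rw [← hga]
      exact_mod_cast hcard
    omega

end Pool.Agent.Helper97.OC
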